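import Pool.Agent.H59.L.S8.TH876.KR.Scale
import Pool.Agent.H59.L.S8.Y96.SumBig

/-!
# Points of one scale, small heights (number field version)

For helper728 (MP_a793bb_nt): adaptation of `low_part` (helper867) with the counting lemmas of
helper876.
-/

set_option autoImplicit false

namespace Pool.Agent.Y515

open Finset NumberField IsDedekindDomain Pool.Agent.H691R3 Pool.Agent.TH876.Loc
open Pool.Agent.TH876.KR (Sc InP PigStmt card_P df_le_hgt mem_side card_log_le numericK pigK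
  sum_sets dK_nn df_int log_Nv_pos')

section
variable {K : Type} [Field K] [NumberField K]

open Classical in
/-- the points of one scale with a distinguished prime, for one set `S` -/
theorem low_S {C : ℕ} (hpig : PigStmt K C) {k n N E : ℕ} (hk : 1 ≤ k) (hn : 1 ≤ n) (hN : 1 ≤ N)
    {X l : ℝ} (hX : 1 ≤ X) (hl : 8 * k * (dK K * Real.log 2) < l) (hE : 3 * l ≤ E)
    (hr : 2 < l / (4 * k * Fintype.card (InfinitePlace K)))
    (hW : C * n * (2 * Real.exp (-(l / (8 * k * Fintype.card (InfinitePlace K))))) ≤ 1)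
    (S : Finset (Pr K))
    (hcount : ∀ e : ℕ, 1 ≤ e → e ≤ E →
      ((n : ℝ) + 1) * (2 * n * E + 1) ^ S.card * (9 * e) ^ C * nn S ^ C < 2 ^ n)
    (hfin : ∀ e : ℕ, 1 ≤ e → e ≤ E →
      C * (Real.log e + n * Real.log X + n * (2 * (l / N)) / e + n) < l / (2 * k))
    (F : Finset K) (hF : ∀ x ∈ F, Pt x ∧ Sc k l x ∧ ∃ (A B D : Fin 3) (p : Pr K),
      A ≠ B ∧ B ≠ D ∧ A ≠ D ∧ InP k S A B D x p ∧ Nv p ≤ X) :
    F.card ≤ 27 * ((E + 1) * (2 ^ (99 * k * (Spl S).card) *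
      (3 * N) ^ (3 * Fintype.card (InfinitePlace K)) * n)) := by
  have hl0 : 0 < l := lt_of_le_of_lt (mul_nonneg (by positivity) dK_nn) hl
  obtain ⟨FP, hFP⟩ : ∃ FP : Fin 3 × Fin 3 × Fin 3 → ℕ → Finset K, FP = fun (σ : Fin 3 × Fin 3 × Fin 3) (e : ℕ) =>
    F.filter fun x => σ.1 ≠ σ.2.1 ∧ σ.2.1 ≠ σ.2.2 ∧ σ.1 ≠ σ.2.2 ∧
      ∃ p, InP k S σ.1 σ.2.1 σ.2.2 x p ∧ Nv p ≤ X ∧
        df (Sum.inr p : Pl K) σ.2.1 x = e * Real.log (Nv p) := ⟨_, rfl⟩
  have hsub : F ⊆ (Finset.univ : Finset (Fin 3 × Fin 3 × Fin 3)).biUnion (fun σ =>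
      (Finset.Icc 1 E).biUnion (fun e => FP σ e)) := by
    intro x hx
    obtain ⟨h1, h2, A, B, D, p, hAB, hBD, hAD, hP, hpX⟩ := hF x hx
    rw [Finset.mem_biUnion]
    refine ⟨(A, B, D), Finset.mem_univ _, ?_⟩
    rw [Finset.mem_biUnion]
    obtain ⟨e, he⟩ := df_int h1 p B
    have hpos := (mem_side h1).1 hP.pB
    have hlog := log_Nv_pos' p
    have hlog2 : Real.log 2 ≤ Real.log (Nv p) := Real.log_le_log (by norm_num) (two_le_Nv p)
    have l2 := Real.log_two_gt_d9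
    have he1 : 1 ≤ e := by
      by_contra hcon
      have : e = 0 := by omega
      rw [he, this] at hpos
      simp at hpos
    have he0 : (0 : ℝ) ≤ e := Nat.cast_nonneg _
    have heE : e ≤ E := by
      have h4 := df_le_hgt h1 (Sum.inr p : Pl K) B
      rw [he] at h4
      have h5 := h2.le_two hk hl0.le
      have h6 : (e : ℝ) ≤ E := by nlinarith
      exact_mod_cast h6
    rw [hFP]
    exact ⟨e, Finset.mem_Icc.2 ⟨he1, heE⟩, Finset.mem_filter.2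
      ⟨hx, hAB, hBD, hAD, p, hP, hpX, he⟩⟩
  have c2 : ∀ σ e, e ∈ Finset.Icc 1 E → (FP σ e).card ≤
      2 ^ (99 * k * (Spl S).card) * (3 * N) ^ (3 * Fintype.card (InfinitePlace K)) * n := by
    intro σ e he
    obtain ⟨he1, he2⟩ := Finset.mem_Icc.1 he
    by_cases hσ : σ.1 ≠ σ.2.1 ∧ σ.2.1 ≠ σ.2.2 ∧ σ.1 ≠ σ.2.2
    · obtain ⟨hAB, hBD, hAD⟩ := hσ
      refine card_P hpig hk hn hN hAB hBD hAD he1 hX hl hE hr hW (hcount e he1 he2)
        (hfin e he1 he2) _ ?_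
      intro x hx
      rw [hFP] at hx
      obtain ⟨h1, _, _, _, h2⟩ := Finset.mem_filter.1 hx
      exact ⟨(hF x h1).1, (hF x h1).2.1, h2⟩
    · have : FP σ e = ∅ := by
        rw [Finset.eq_empty_iff_forall_notMem]
        intro x hx
        rw [hFP] at hx
        obtain ⟨_, a1, a2, a3, _⟩ := Finset.mem_filter.1 hx
        exact hσ ⟨a1, a2, a3⟩
      rw [this, Finset.card_empty]
      exact Nat.zero_le _
  refine (Finset.card_le_card hsub).trans ?_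
  refine (Finset.card_biUnion_le_card_mul _ _ ((E + 1) * (2 ^ (99 * k * (Spl S).card) *
    (3 * N) ^ (3 * Fintype.card (InfinitePlace K)) * n)) ?_).trans (le_of_eq ?_)
  · intro σ _
    refine (Finset.card_biUnion_le_card_mul _ _ (2 ^ (99 * k * (Spl S).card) *
      (3 * N) ^ (3 * Fintype.card (InfinitePlace K)) * n) ?_).trans ?_
    · intro e he
      exact c2 σ e he
    · rw [Nat.card_Icc]
      exact Nat.mul_le_mul_right _ (by omega)
  · rw [Finset.card_univ]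
    rfl

variable (K) in
/-- the bound at one scale, for one set `S` -/
theorem low_scaleK {k : ℕ} (hk : 3 ≤ k) {η : ℝ} (hη : 0 < η) : ∃ D : ℝ, 0 < D ∧ ∃ L0 : ℝ,
    3 ≤ L0 ∧ ∀ X : ℝ, 1 ≤ X → L0 ≤ Real.log X → ∀ l : ℝ, Real.log X ^ (2 + η) ≤ l → l ≤ X →
    ∀ S : Finset (Pr K), nn S ≤ X →
    ∀ F : Finset K, (∀ x ∈ F, Pt x ∧ Sc k l x ∧ ∃ (A B D : Fin 3) (p : Pr K),
      A ≠ B ∧ B ≠ D ∧ A ≠ D ∧ InP k S A B D x p ∧ Nv p ≤ X) →
    (F.card : ℝ) ≤ D * X ^ (1 / (k : ℝ)) * l * ((2 : ℝ) ^ (99 * k)) ^ S.card := by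
  classical
  have hk0 : (0 : ℝ) < k := by positivity
  have hk1 : 1 ≤ k := by omega
  obtain ⟨C, hC, hpig⟩ := pigK K
  obtain ⟨r, hr⟩ : ∃ r, r = Fintype.card (InfinitePlace K) := ⟨_, rfl⟩
  have hr1 : 1 ≤ r := by rw [hr]; exact Fintype.card_pos
  obtain ⟨T, hT, hnum⟩ := numericK C k r hC hk1 hr1 (dK K * Real.log 2) dK_nn
  obtain ⟨L0, hL0, hsm⟩ := Pool.Agent.TH867.SR.sq_log_small hη hT
  obtain ⟨m, hm⟩ : ∃ m : ℕ, m = 3 * r + 1 := ⟨_, rfl⟩
  obtain ⟨A, hA⟩ : ∃ A : ℝ, A = 21 + 12 * C := ⟨_, rfl⟩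
  have hA0 : 0 < A := by rw [hA]; positivity
  obtain ⟨D2, hD2, hpow⟩ : ∃ D2 : ℝ, 0 < D2 ∧ ∀ X : ℝ, 1 ≤ X →
      Real.log X ^ (2 * m) ≤ D2 * X ^ (1 / (k : ℝ)) := by
    refine ⟨(2 * m * k) ^ (2 * m), ?_, ?_⟩
    · rw [hm]; positivity
    intro X hX
    have hX0 : 0 < X := by linarith
    have hm0 : (0 : ℝ) < 2 * m * k := by rw [hm]; positivity
    have a1 : Real.log X ≤ X ^ (1 / (2 * m * (k : ℝ))) / (1 / (2 * m * (k : ℝ))) :=
      Real.log_le_rpow_div hX0.le (by positivity)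
    have a2 : X ^ (1 / (2 * m * (k : ℝ))) / (1 / (2 * m * (k : ℝ))) =
        2 * m * k * X ^ (1 / (2 * m * (k : ℝ))) := by
      field_simp
    rw [a2] at a1
    refine (pow_le_pow_left₀ (Real.log_nonneg hX) a1 _).trans (le_of_eq ?_)
    rw [mul_pow, ← Real.rpow_natCast (X ^ (1 / (2 * m * (k : ℝ)))), ← Real.rpow_mul hX0.le]
    congr 2
    have : (m : ℝ) ≠ 0 := by
      rw [hm]; positivity
    push_cast
    field_simp
  refine ⟨27 * 2 ^ (99 * k * r) * (5 * ((48 * C * k) ^ (3 * r) * A ^ m * D2)) + 1,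
    by positivity, L0, hL0, ?_⟩
  intro X hX hXL l hl hlX S hSX F hF
  have hX0 : 0 < X := by linarith
  obtain ⟨L, hLd⟩ : ∃ L, L = Real.log X := ⟨_, rfl⟩
  rw [← hLd] at hXL hl
  have hL3 : 3 ≤ L := hL0.trans hXL
  obtain ⟨hlog1, hLl, hTl⟩ := hsm L hXL l hl
  have hl3 : 3 ≤ l := hL3.trans hLl
  have hl0 : 0 < l := by linarith
  have hlogL : Real.log l ≤ L := by
    rw [hLd]; exact Real.log_le_log hl0 hlX
  obtain ⟨n, N, E, hn, hN, hnA, hNn, hE1, hE2, c1, c2, c3, c4, c5⟩ := hnum L l hL3 hlog1 hLl hTl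
  rw [← hA] at hnA
  have hcount := low_S (C := C) hpig hk1 hn hN hX c1 hE1 (by rw [← hr]; exact c2)
    (by rw [← hr]; exact c3) S
    (fun e he heE => c4 S.card e (nn S) (by
        have h1 := card_log_le hSX
        have l2 := Real.log_two_gt_d9
        rw [← hLd] at h1
        nlinarith [(Nat.cast_nonneg S.card : (0 : ℝ) ≤ S.card)]) (one_le_nn S) (by
        rw [hLd]; exact Real.log_le_log (nn_pos S) hSX) he heE)
    (fun e he heE => by rw [← hLd]; exact c5 e he heE) F hF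
  rw [← hr] at hcount
  obtain ⟨Q, hQ⟩ : ∃ Q : ℝ, Q = (E + 1) * ((3 * N) ^ (3 * r) * n) := ⟨_, rfl⟩
  have hN0 : (1 : ℝ) ≤ N := by exact_mod_cast hN
  have hn0 : (1 : ℝ) ≤ n := by exact_mod_cast hn
  have hQ0 : 0 ≤ Q := by rw [hQ]; positivity
  have h1 : (F.card : ℝ) ≤ (27 * Q * 2 ^ (99 * k * r)) * ((2 : ℝ) ^ (99 * k)) ^ S.card := by
    have h2 : (F.card : ℝ) ≤ ((27 * ((E + 1) * (2 ^ (99 * k * (Spl S).card) *
      (3 * N) ^ (3 * r) * n)) : ℕ) : ℝ) := by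
      exact_mod_cast hcount
    refine h2.trans (le_of_eq ?_)
    push_cast
    rw [card_Spl, ← hr, hQ]
    have e1 : (2 : ℝ) ^ (99 * k * (r + S.card)) = 2 ^ (99 * k * r) * (2 ^ (99 * k)) ^ S.card := by
      rw [mul_add, pow_add, ← pow_mul]
    rw [e1]
    ring
  -- the bound for `Q`
  have hnL : (n : ℝ) ≤ A * L ^ 2 := by
    refine hnA.trans ?_
    have : L * Real.log l ≤ L ^ 2 := by rw [sq]; exact mul_le_mul_of_nonneg_left hlogL (by linarith)
    exact mul_le_mul_of_nonneg_left this hA0.le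
  have hQ2 : Q ≤ 5 * l * ((48 * C * k) ^ (3 * r) * A ^ m * (D2 * X ^ (1 / (k : ℝ)))) := by
    rw [hQ]
    have q1 : (E : ℝ) + 1 ≤ 5 * l := by linarith
    have q2 : ((3 : ℝ) * N) ^ (3 * r) * n = (48 * C * k) ^ (3 * r) * (n : ℝ) ^ m := by
      rw [hNn, hm, pow_succ]
      have : (3 : ℝ) * (16 * C * k * n) = (48 * C * k) * n := by ring
      rw [this, mul_pow]
      ring
    have q3 : (n : ℝ) ^ m ≤ A ^ m * (D2 * X ^ (1 / (k : ℝ))) := by
      calc (n : ℝ) ^ m ≤ (A * L ^ 2) ^ m := pow_le_pow_left₀ (Nat.cast_nonneg _) hnL m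
        _ = A ^ m * L ^ (2 * m) := by rw [mul_pow, ← pow_mul]
        _ ≤ _ := by
            refine mul_le_mul_of_nonneg_left ?_ (by positivity)
            rw [hLd]
            exact hpow X hX
    rw [q2]
    refine mul_le_mul q1 ?_ (by positivity) (by positivity)
    rw [mul_assoc ((48 * (C : ℝ) * k) ^ (3 * r))]
    exact mul_le_mul_of_nonneg_left q3 (by positivity)
  calc (F.card : ℝ) ≤ (27 * Q * 2 ^ (99 * k * r)) * ((2 : ℝ) ^ (99 * k)) ^ S.card := h1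
    _ ≤ (27 * (5 * l * ((48 * C * k) ^ (3 * r) * A ^ m * (D2 * X ^ (1 / (k : ℝ))))) *
          2 ^ (99 * k * r)) * ((2 : ℝ) ^ (99 * k)) ^ S.card := by
        refine mul_le_mul_of_nonneg_right ?_ (by positivity)
        refine mul_le_mul_of_nonneg_right ?_ (by positivity)
        exact mul_le_mul_of_nonneg_left hQ2 (by norm_num)
    _ = (27 * 2 ^ (99 * k * r) * (5 * ((48 * C * k) ^ (3 * r) * A ^ m * D2))) *
          X ^ (1 / (k : ℝ)) * l * ((2 : ℝ) ^ (99 * k)) ^ S.card := by ring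
    _ ≤ _ := by
        refine mul_le_mul_of_nonneg_right ?_ (by positivity)
        refine mul_le_mul_of_nonneg_right ?_ hl0.le
        refine mul_le_mul_of_nonneg_right ?_ (by positivity)
        linarith

end

theorem low_partK (K : Type) [Field K] [NumberField K] {k : ℕ} (hk : 9 ≤ k) {C η : ℝ}
    (hC : 1 ≤ C) (hη : 0 < η) : ∃ D : ℝ, 0 < D ∧ ∃ X0 : ℝ, 16 ≤ X0 ∧ ∀ X : ℝ, X0 ≤ X →
    ∀ l : ℝ, Real.log X ^ (2 + η) ≤ l → ∀ F : Finset K, (∀ x ∈ F, Pt x ∧ Sc k l x ∧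
      ∃ (S : Finset (Pr K)) (A B E : Fin 3) (p : Pr K), nn S ≤ X ^ (2 / 3 + 1 / (k : ℝ)) ∧
        A ≠ B ∧ B ≠ E ∧ A ≠ E ∧ InP k S A B E x p ∧ Nv p ≤ X ∧
        l ≤ (C * Real.log X) ^ S.card * X ^ (1 / (k : ℝ))) →
    (F.card : ℝ) ≤ D * X ^ (2 / 3 + 5 / (k : ℝ)) := by
  classical
  have hk1 : 1 ≤ k := by omega
  have hk9 : (9 : ℝ) ≤ k := by exact_mod_cast hk
  have hk0 : (0 : ℝ) < k := by linarith
  have h1k : 0 < 1 / (k : ℝ) := by positivity
  have h1k9 : 1 / (k : ℝ) ≤ 1 / 9 := one_div_le_one_div_of_le (by norm_num) hk9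
  obtain ⟨C2, hC2⟩ : ∃ C2 : ℝ, C2 = C * 2 ^ (99 * k) := ⟨_, rfl⟩
  have h2k : (1 : ℝ) ≤ 2 ^ (99 * k) := one_le_pow₀ (by norm_num)
  have hC2C : C ≤ C2 := by
    rw [hC2]
    exact le_mul_of_one_le_right (by linarith) h2k
  have hC21 : 1 ≤ C2 := hC.trans hC2C
  obtain ⟨Xs, hXs1, hsum⟩ := Pool.Agent.Y96.sum_bigK K C2 (1 / (k : ℝ)) hC21 h1k
  obtain ⟨D1, hD1, L0, hL0, hlow⟩ := low_scaleK K (k := k) (by omega) hη
  obtain ⟨hfinU, -⟩ := sum_sets K 1 le_rfl 1 one_pos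
  refine ⟨D1, hD1, max Xs (Real.exp L0), hXs1.trans (le_max_left _ _),
    fun X hX l hl F hF => ?_⟩
  have hXs : Xs ≤ X := (le_max_left _ _).trans hX
  have hXL : Real.exp L0 ≤ X := (le_max_right _ _).trans hX
  have hX16 : 16 ≤ X := hXs1.trans hXs
  have hX1 : 1 ≤ X := by linarith
  have hX0 : 0 < X := by linarith
  obtain ⟨L, hL⟩ : ∃ L, L = Real.log X := ⟨_, rfl⟩
  have hLL : L0 ≤ L := by rw [hL, Real.le_log_iff_exp_le hX0]; exact hXL
  have hL3 : 3 ≤ L := hL0.trans hLL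
  obtain ⟨M, hM⟩ : ∃ M : ℝ, M = X ^ (2 / 3 + 1 / (k : ℝ)) := ⟨_, rfl⟩
  have hM1 : 1 ≤ M := by rw [hM]; exact Real.one_le_rpow hX1 (by positivity)
  have hMX : M ≤ X := by
    rw [hM]
    calc X ^ (2 / 3 + 1 / (k : ℝ)) ≤ X ^ (1 : ℝ) :=
          Real.rpow_le_rpow_of_exponent_le hX1 (by linarith)
      _ = X := Real.rpow_one X
  set U := (hfinU M).toFinset with hU
  have hUm : ∀ S : Finset (Pr K), S ∈ U ↔ nn S ≤ M := by
    intro S
    rw [hU, Set.Finite.mem_toFinset]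
    rfl
  have hsumM := hsum X hXs M hM1 hMX U (fun S hS => (hUm S).1 hS)
  rw [← hL] at hl hsumM hF
  have hsumM' : ∑ S ∈ U, (C2 * L) ^ S.card ≤ X ^ (2 / 3 + 2 / (k : ℝ)) := by
    refine hsumM.trans (le_of_eq ?_)
    rw [hM, ← Real.rpow_add hX0]
    congr 1
    ring
  -- a single term
  have hterm : ∀ S ∈ U, (C * L) ^ S.card * X ^ (1 / (k : ℝ)) ≤ X := by
    intro S hS
    have e1 : (C * L) ^ S.card ≤ (C2 * L) ^ S.card :=
      pow_le_pow_left₀ (by positivity) (mul_le_mul_of_nonneg_right hC2C (by linarith)) _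
    have e2 : (C2 * L) ^ S.card ≤ ∑ S ∈ U, (C2 * L) ^ S.card :=
      Finset.single_le_sum (f := fun S : Finset (Pr K) => (C2 * L) ^ S.card)
        (fun _ _ => by positivity) hS
    calc (C * L) ^ S.card * X ^ (1 / (k : ℝ)) ≤
        X ^ (2 / 3 + 2 / (k : ℝ)) * X ^ (1 / (k : ℝ)) :=
          mul_le_mul_of_nonneg_right (e1.trans (e2.trans hsumM')) (by positivity)
      _ = X ^ (2 / 3 + 3 / (k : ℝ)) := by
          rw [← Real.rpow_add hX0]
          congr 1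
          ring
      _ ≤ X ^ (1 : ℝ) := by
          refine Real.rpow_le_rpow_of_exponent_le hX1 ?_
          have : 3 / (k : ℝ) = 3 * (1 / k) := by ring
          linarith
      _ = X := Real.rpow_one X
  obtain ⟨Fm, hFm⟩ : ∃ Fm : Finset (Pr K) → Finset K, Fm = fun S => F.filter fun x =>
      (∃ (A B E : Fin 3) (p : Pr K), A ≠ B ∧ B ≠ E ∧ A ≠ E ∧ InP k S A B E x p ∧ Nv p ≤ X) ∧
      l ≤ (C * L) ^ S.card * X ^ (1 / (k : ℝ)) := ⟨_, rfl⟩
  have hsub : F ⊆ U.biUnion Fm := by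
    intro x hx
    obtain ⟨a1, a2, S, A, B, E, p, hSM, hAB, hBE, hAE, hP, hpX, hlS⟩ := hF x hx
    rw [mem_biUnion]
    refine ⟨S, (hUm S).2 (by rw [hM]; exact hSM), ?_⟩
    rw [hFm, mem_filter]
    exact ⟨hx, ⟨A, B, E, p, hAB, hBE, hAE, hP, hpX⟩, hlS⟩
  have hFmc : ∀ S ∈ U, ((Fm S).card : ℝ) ≤
      D1 * X ^ (1 / (k : ℝ)) * X ^ (1 / (k : ℝ)) * (C2 * L) ^ S.card := by
    intro S hS
    rcases (Fm S).eq_empty_or_nonempty with he | ⟨t0, ht0⟩
    · rw [he, Finset.card_empty, Nat.cast_zero]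
      positivity
    · have hSM := (hUm S).1 hS
      have hlthr : l ≤ (C * L) ^ S.card * X ^ (1 / (k : ℝ)) := by
        rw [hFm, mem_filter] at ht0
        exact ht0.2.2
      have h1 := hlow X hX1 (by rw [← hL]; exact hLL) l (by rw [← hL]; exact hl)
        (hlthr.trans (hterm S hS)) S (hSM.trans hMX) (Fm S) (by
          intro t ht
          rw [hFm, mem_filter] at ht
          obtain ⟨b1, b2, -⟩ := ht
          exact ⟨(hF t b1).1, (hF t b1).2.1, b2⟩)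
      refine h1.trans ?_
      calc D1 * X ^ (1 / (k : ℝ)) * l * ((2 : ℝ) ^ (99 * k)) ^ S.card ≤
          D1 * X ^ (1 / (k : ℝ)) * ((C * L) ^ S.card * X ^ (1 / (k : ℝ))) *
            ((2 : ℝ) ^ (99 * k)) ^ S.card :=
            mul_le_mul_of_nonneg_right (mul_le_mul_of_nonneg_left hlthr (by positivity))
              (by positivity)
        _ = D1 * X ^ (1 / (k : ℝ)) * X ^ (1 / (k : ℝ)) * ((C * L) ^ S.card *
            ((2 : ℝ) ^ (99 * k)) ^ S.card) := by ring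
        _ = D1 * X ^ (1 / (k : ℝ)) * X ^ (1 / (k : ℝ)) * (C2 * L) ^ S.card := by
            rw [← mul_pow, hC2]
            congr 2
            ring
  have h3 : (F.card : ℝ) ≤ ∑ S ∈ U, ((Fm S).card : ℝ) := by
    have := (Finset.card_le_card hsub).trans Finset.card_biUnion_le
    exact_mod_cast this
  refine (h3.trans (Finset.sum_le_sum hFmc)).trans ?_
  rw [← Finset.mul_sum]
  calc D1 * X ^ (1 / (k : ℝ)) * X ^ (1 / (k : ℝ)) * ∑ S ∈ U, (C2 * L) ^ S.card ≤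
      D1 * X ^ (1 / (k : ℝ)) * X ^ (1 / (k : ℝ)) * X ^ (2 / 3 + 2 / (k : ℝ)) :=
        mul_le_mul_of_nonneg_left hsumM' (by positivity)
    _ = D1 * (X ^ (1 / (k : ℝ)) * X ^ (1 / (k : ℝ)) * X ^ (2 / 3 + 2 / (k : ℝ))) := by ring
    _ = D1 * X ^ (2 / 3 + 4 / (k : ℝ)) := by
        rw [← Real.rpow_add hX0, ← Real.rpow_add hX0]
        congr 2
        ring
    _ ≤ D1 * X ^ (2 / 3 + 5 / (k : ℝ)) := by
        refine mul_le_mul_of_nonneg_left ?_ hD1.le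
        refine Real.rpow_le_rpow_of_exponent_le hX1 ?_
        have : 4 / (k : ℝ) ≤ 5 / k := div_le_div_of_nonneg_right (by norm_num) hk0.le
        linarith

end Pool.Agent.Y515
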